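import Pool.Agent.L7h20.MO.Pair

/-! # Project MO: calculus (after helper8, `L7h8/NF/FINYa.lean`, with general dimensions) -/

set_option autoImplicit false

open Set Filter Topology Metric Function
open scoped Manifold ContDiff

noncomputable section

namespace Pool.Agent.L7h20.MO

open Pool.Agent.Y522

variable {n a b : ℕ}

/-- the family in coordinates -/
def Ph (R : E a → E b) (c v : E n → E a) (p : ℝ × E n) : E b :=
  R (c p.2 + p.1 • v p.2)

/-- its derivative in the space variable -/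
def PP (Φ : ℝ × E n → E b) (ε : ℝ) (w : E n) : E n →L[ℝ] E b :=
  (fderiv ℝ Φ (ε, w)).comp (ContinuousLinearMap.inr ℝ ℝ (E n))

/-- the derivative of the latter in the parameter -/
def PP' (Φ : ℝ × E n → E b) (ε : ℝ) (w : E n) : E n →L[ℝ] E b :=
  (fderiv ℝ (fderiv ℝ Φ) (ε, w) (1, 0)).comp (ContinuousLinearMap.inr ℝ ℝ (E n))

lemma Ph_smooth {R : E a → E b} {c v : E n → E a} {z : E n}
    (hR : ContDiffAt ℝ ∞ R (c z)) (hc : ContDiffAt ℝ ∞ c z) (hv : ContDiffAt ℝ ∞ v z) :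
    ContDiffAt ℝ ∞ (Ph R c v) (0, z) := by
  unfold Ph
  have h1 : ContDiffAt ℝ ∞ (fun p : ℝ × E n => c p.2) (0, z) :=
    ContDiffAt.comp (g := c) (f := fun p : ℝ × E n => p.2) (0, z) hc contDiffAt_snd
  have h2 : ContDiffAt ℝ ∞ (fun p : ℝ × E n => v p.2) (0, z) :=
    ContDiffAt.comp (g := v) (f := fun p : ℝ × E n => p.2) (0, z) hv contDiffAt_snd
  have h3 : ContDiffAt ℝ ∞ (fun p : ℝ × E n => c p.2 + p.1 • v p.2) (0, z) :=
    h1.add (contDiffAt_fst.smul h2)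
  exact ContDiffAt.comp (g := R) (f := fun p : ℝ × E n => c p.2 + p.1 • v p.2) (0, z) (by simpa using hR) h3

lemma PP_fderiv {Φ : ℝ × E n → E b} {ε : ℝ} {w : E n} (h : DifferentiableAt ℝ Φ (ε, w)) :
    HasFDerivAt (fun w => Φ (ε, w)) (PP Φ ε w) w :=
  h.hasFDerivAt.comp w (hasFDerivAt_prodMk_right ε w)

lemma PP_cont {Φ : ℝ × E n → E b} {z : E n} (h : ContDiffAt ℝ 2 Φ (0, z)) :
    ContinuousAt (fun p : ℝ × E n => PP Φ p.1 p.2) (0, z) := by
  unfold PP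
  have h1 : ContinuousAt (fderiv ℝ Φ) (0, z) := (h.fderiv_right (m := 1) (by norm_num)).continuousAt
  exact h1.clm_comp continuousAt_const

lemma PP'_cont {Φ : ℝ × E n → E b} {z : E n} (h : ContDiffAt ℝ 2 Φ (0, z)) :
    ContinuousAt (fun p : ℝ × E n => PP' Φ p.1 p.2) (0, z) := by
  unfold PP'
  have h1 : ContDiffAt ℝ 1 (fderiv ℝ Φ) (0, z) := h.fderiv_right (m := 1) (by norm_num)
  have h2 : ContinuousAt (fderiv ℝ (fderiv ℝ Φ)) (0, z) := (h1.fderiv_right (m := 0) (by norm_num)).continuousAt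
  exact (h2.clm_apply continuousAt_const).clm_comp continuousAt_const

lemma PP_deriv {Φ : ℝ × E n → E b} {ε : ℝ} {w : E n} (h : ContDiffAt ℝ 2 Φ (ε, w)) :
    HasDerivAt (fun ε => PP Φ ε w) (PP' Φ ε w) ε := by
  have h1 : ContDiffAt ℝ 1 (fderiv ℝ Φ) (ε, w) := h.fderiv_right (m := 1) (by norm_num)
  have h2 : HasFDerivAt (fderiv ℝ Φ) (fderiv ℝ (fderiv ℝ Φ) (ε, w)) (ε, w) :=
    (h1.differentiableAt (by norm_num)).hasFDerivAt
  have h3 : HasDerivAt (fun ε : ℝ => (ε, w)) ((1:ℝ), (0 : E n)) ε :=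
    (hasDerivAt_id ε).prodMk (hasDerivAt_const ε w)
  have h4 : HasDerivAt (fun ε : ℝ => fderiv ℝ Φ (ε, w)) (fderiv ℝ (fderiv ℝ Φ) (ε, w) (1, 0)) ε :=
    h2.comp_hasDerivAt ε h3
  have h5 := h4.clm_comp (hasDerivAt_const ε (ContinuousLinearMap.inr ℝ ℝ (E n)))
  simpa [PP, PP'] using h5

lemma PP'_eq {R : E a → E b} {c v : E n → E a} {z : E n}
    (hR : ContDiffAt ℝ ∞ R (c z)) (hc : ContDiffAt ℝ ∞ c z) (hv : ContDiffAt ℝ ∞ v z) :
    PP' (Ph R c v) 0 z = fderiv ℝ (fun w => fderiv ℝ R (c w) (v w)) z := by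
  have hΦ := Ph_smooth hR hc hv
  have hΦ2 : ContDiffAt ℝ 2 (Ph R c v) (0, z) := hΦ.of_le (WithTop.coe_le_coe.2 (le_top : (2:ℕ∞) ≤ ⊤))
  have hsym : IsSymmSndFDerivAt ℝ (Ph R c v) (0, z) := hΦ2.isSymmSndFDerivAt (by simp)
  have h1 : ContDiffAt ℝ 1 (fderiv ℝ (Ph R c v)) (0, z) := hΦ2.fderiv_right (m := 1) (by norm_num)
  have h2 : HasFDerivAt (fderiv ℝ (Ph R c v)) (fderiv ℝ (fderiv ℝ (Ph R c v)) (0, z)) (0, z) :=
    (h1.differentiableAt (by norm_num)).hasFDerivAt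
  -- the right side near `z`
  have hRd : ∀ᶠ w in 𝓝 z, DifferentiableAt ℝ R (c w) := by
    have hR1 : ContDiffAt ℝ 1 R (c z) := hR.of_le (by exact_mod_cast (le_top : (1:ℕ∞) ≤ ⊤))
    have := hR1.eventually (by simp)
    filter_upwards [hc.continuousAt.eventually this] with w hw
    exact hw.differentiableAt (by norm_num)
  have hΦd : ∀ᶠ w in 𝓝 z, DifferentiableAt ℝ (Ph R c v) (0, w) := by
    have h3 := hΦ2.eventually (by simp)
    have h4 : ContinuousAt (fun w : E n => ((0:ℝ), w)) z := by fun_prop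
    filter_upwards [h4.eventually h3] with w hw
    exact hw.differentiableAt (by norm_num)
  have heq : (fun w => fderiv ℝ R (c w) (v w)) =ᶠ[𝓝 z] fun w => fderiv ℝ (Ph R c v) (0, w) (1, 0) := by
    filter_upwards [hRd, hΦd] with w hw1 hw2
    have h5 : HasDerivAt (fun ε : ℝ => (ε, w)) ((1:ℝ), (0 : E n)) 0 :=
      (hasDerivAt_id 0).prodMk (hasDerivAt_const 0 w)
    have hw3 := hw2.hasFDerivAt
    have h6 : HasDerivAt (fun ε : ℝ => Ph R c v (ε, w)) (fderiv ℝ (Ph R c v) (0, w) (1, 0)) 0 :=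
      HasFDerivAt.comp_hasDerivAt (f := fun ε : ℝ => (ε, w)) (l := Ph R c v) (l' := fderiv ℝ (Ph R c v) (0, w))
        (0:ℝ) hw3 h5
    have h7 : HasDerivAt (fun ε : ℝ => c w + ε • v w) (v w) 0 := by
      have := ((hasDerivAt_id (0:ℝ)).smul_const (v w)).const_add (c w)
      simpa using this
    have h8 : HasDerivAt (fun ε : ℝ => Ph R c v (ε, w)) (fderiv ℝ R (c w) (v w)) 0 := by
      have h9 : HasFDerivAt R (fderiv ℝ R (c w)) (c w + (0:ℝ) • v w) := by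
        rw [zero_smul, add_zero]
        exact hw1.hasFDerivAt
      exact h9.comp_hasDerivAt (0:ℝ) h7
    exact h8.unique h6
  rw [heq.fderiv_eq]
  have h3 : HasFDerivAt (fun w => fderiv ℝ (Ph R c v) (0, w))
      ((fderiv ℝ (fderiv ℝ (Ph R c v)) (0, z)).comp (ContinuousLinearMap.inr ℝ ℝ (E n))) z :=
    h2.comp z (hasFDerivAt_prodMk_right 0 z)
  have h4 : HasFDerivAt (fun w => fderiv ℝ (Ph R c v) (0, w) ((1:ℝ), (0 : E n)))
      ((ContinuousLinearMap.apply ℝ (E b) ((1:ℝ), (0 : E n))).comp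
        ((fderiv ℝ (fderiv ℝ (Ph R c v)) (0, z)).comp (ContinuousLinearMap.inr ℝ ℝ (E n)))) z :=
    (ContinuousLinearMap.apply ℝ (E b) ((1:ℝ), (0 : E n))).hasFDerivAt.comp z h3
  rw [h4.fderiv]
  ext1 u
  simp only [PP', ContinuousLinearMap.comp_apply, ContinuousLinearMap.inr_apply, ContinuousLinearMap.apply_apply]
  exact hsym _ _

end Pool.Agent.L7h20.MO
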