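import Pool.Agent.L7h20.MO.Fin

/-!
# Project MO: coverings of closed manifolds

Without a condition on the fundamental groups. The homotopy is helper45's (`L7h45/NF/Closed.lean`).
-/

set_option autoImplicit false
set_option linter.unusedSectionVars false

open Set Filter Topology Metric Function
open scoped Manifold ContDiff

noncomputable section

namespace Pool.Agent.L7h20.MO

open Pool.Agent.Y522 Pool.Agent.L7h20.NF Pool.Agent.L7h45.NF

theorem cover {m : ℕ} {X Y : Type} [TopologicalSpace X] [T2Space X] [CompactSpace X]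
    [ConnectedSpace X] [ChartedSpace (E (m + 1)) X] [IsManifold (𝓡 (m + 1)) ∞ X]
    [TopologicalSpace Y] [T2Space Y] [CompactSpace Y] [ConnectedSpace Y]
    [ChartedSpace (E (m + 1)) Y] [IsManifold (𝓡 (m + 1)) ∞ Y] (f : C(X, Y)) (c : X → Y → ℝ)
    (hM : Mono (m := m) c f) {O : Set (X × Y)} (hO : IsOpen O) (hgr : ∀ x, (x, f x) ∈ O) :
    ∃ G : C(X, Y), IsCoveringMap G ∧ Surjective G ∧ (∀ x, LD (m + 1) G x) ∧
      (∀ x, (x, G x) ∈ O) ∧ f.Homotopic G := by
  have hf : Continuous f := f.continuous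
  obtain ⟨a, κ, ρ, U, hR⟩ := exists_ret m Y
  have hκ : Continuous κ := hR.smk.continuous
  obtain ⟨ε, hε, hεU⟩ := (isCompact_range hκ).exists_thickening_subset_open hR.op
    (range_subset_iff.2 hR.mem)
  obtain ⟨G, hG, hGO⟩ := core hR hM (O := O ∩ {p | dist (κ (f p.1)) (κ p.2) < ε})
    (hO.inter (isOpen_lt (((hκ.comp hf).comp continuous_fst).dist (hκ.comp continuous_snd))
      continuous_const)) (fun x => ⟨hgr x, by simpa using hε⟩)
  have hGld : IsLocalDiffeomorph (𝓡 (m + 1)) (𝓡 (m + 1)) ∞ G := fun x => hG x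
  have hGc : Continuous G := continuous_iff_continuousAt.2 fun x => LD.continuousAt (hG x)
  have hloc : IsLocalHomeomorph G := hGld.isLocalHomeomorph
  let g : C(X, Y) := ⟨G, hGc⟩
  have hseg : ∀ (x : X) (t : ℝ), 0 ≤ t → t ≤ 1 → (1 - t) • κ (f x) + t • κ (G x) ∈ U := by
    intro x t h0 h1
    refine hεU (mem_thickening_iff.2 ⟨κ (f x), ⟨f x, rfl⟩, ?_⟩)
    have h2 : dist (κ (f x)) (κ (G x)) < ε := (hGO x).2
    rw [dist_eq_norm] at h2 ⊢
    have h3 : (1 - t) • κ (f x) + t • κ (G x) - κ (f x) = - (t • (κ (f x) - κ (G x))) := by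
      module
    rw [h3, norm_neg, norm_smul, Real.norm_of_nonneg h0]
    calc t * ‖κ (f x) - κ (G x)‖ ≤ 1 * ‖κ (f x) - κ (G x)‖ :=
          mul_le_mul_of_nonneg_right h1 (norm_nonneg _)
      _ < ε := by rwa [one_mul]
  have hρ : ContinuousOn ρ U := fun u hu => (hR.smr u hu).continuousAt.continuousWithinAt
  have hfg : f.Homotopic g := by
    refine ⟨⟨⟨fun p : unitInterval × X =>
      ρ ((1 - (p.1 : ℝ)) • κ (f p.2) + (p.1 : ℝ) • κ (G p.2)), ?_⟩, ?_, ?_⟩⟩
    · refine hρ.comp_continuous ?_ fun p => hseg p.2 p.1 p.1.2.1 p.1.2.2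
      fun_prop
    · intro x
      simp [hR.ret]
    · intro x
      simp [hR.ret, g]
  refine ⟨g, isLocalHomeomorph_iff_isCoveringMap.1 hloc, ?_, hG, fun x => (hGO x).1, hfg⟩
  have h : range G = univ :=
    IsClopen.eq_univ ⟨(isCompact_range hGc).isClosed, hloc.isOpenMap.isOpen_range⟩
      (range_nonempty G)
  exact range_eq_univ.1 h

end Pool.Agent.L7h20.MO
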