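import Pool.Agent.L7h20.MO.Mixed
import Pool.Agent.L7h8.NF.FINY
import Pool.Agent.L7h45.NF.Closed
import Pool.Agent.Y761.CI.Pre

/-!
# Project MO: the global argument
-/

set_option autoImplicit false

open Set Filter Topology Metric Function
open scoped Manifold ContDiff

noncomputable section

namespace Pool.Agent.L7h20.MO

open Pool.Agent.Y522 Pool.Agent.L7h20.NF
open Pool.Agent.L7h8.NF (GY ev_split local_OY)

variable {m a : ℕ} {X Y : Type} [TopologicalSpace X] [ChartedSpace (E (m + 1)) X]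
  [TopologicalSpace Y] [ChartedSpace (E (m + 1)) Y]
  {κ : Y → E a} {ρ : E a → Y} {U : Set (E a)} {f : X → Y} {c : X → Y → ℝ}

/-- `f` is monotone for the cost `c`, nondegenerate on the kernel of `D f` -/
structure Mono (c : X → Y → ℝ) (f : X → Y) : Prop where
  smf : ContMDiff (𝓡 (m + 1)) (𝓡 (m + 1)) ∞ f
  smc : ContMDiff ((𝓡 (m + 1)).prod (𝓡 (m + 1))) 𝓘(ℝ, ℝ) ∞ (fun p : X × Y => c p.1 p.2)
  le : ∀ (x : X) (v : E (m + 1)),
    mixed (n := m + 1) c x (f x) v (mfderiv (𝓡 (m + 1)) (𝓡 (m + 1)) f x v) ≤ 0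
  nd : ∀ (x : X) (v : E (m + 1)), v ≠ 0 → mfderiv (𝓡 (m + 1)) (𝓡 (m + 1)) f x v = 0 →
    ∃ u : E (m + 1), mixed (n := m + 1) c x (f x) v u ≠ 0

/-- minus the gradient of `c (x, ρ ·)` at `κ (f x)` -/
def VV (c : X → Y → ℝ) (κ : Y → E a) (ρ : E a → Y) (f : X → Y) (x : X) : E a :=
  - sh a (fderiv ℝ (fun u => c x (ρ u)) (κ (f x)))

/-- the local step in coordinates -/
theorem step [IsManifold (𝓡 (m + 1)) ∞ X] [IsManifold (𝓡 (m + 1)) ∞ Y]
    (hκ : Ret (m := m) κ ρ U) (hM : Mono (m := m) c f) {A : E (m + 1) → X} {z : E (m + 1)}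
    (hA : LD (m + 1) A z) :
    ContDiffAt ℝ ∞ (fun w => VV c κ ρ f (A w)) z ∧
    ∀ᶠ p : ℝ × E (m + 1) in 𝓝 (0, z), 0 < p.1 →
      Injective (PP (Ph (fun u => κ (ρ u)) (fun w => κ (f (A w))) (fun w => VV c κ ρ f (A w)))
        p.1 p.2) := by
  have hρ : ∀ y, ContMDiffAt (𝓡 a) (𝓡 (m + 1)) ∞ ρ (κ y) := fun y => hκ.smr _ (hκ.mem y)
  -- `D ρ ∘ D (κ ∘ f ∘ A) = D f ∘ D A`
  have hDρ : ∀ w, LD (m + 1) A w → ∀ ζ : E (m + 1),
      (mfderiv (𝓡 a) (𝓡 (m + 1)) ρ (κ (f (A w))) (fderiv ℝ (fun w => κ (f (A w))) w ζ) :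
        E (m + 1)) =
      mfderiv (𝓡 (m + 1)) (𝓡 (m + 1)) f (A w) (mfderiv (𝓡 (m + 1)) (𝓡 (m + 1)) A w ζ) := by
    intro w hw ζ
    have hcd : MDifferentiableAt (𝓡 (m + 1)) (𝓡 a) (fun w => κ (f (A w))) w :=
      (Pool.Agent.L7h8.NF.c_smooth hκ hM.smf hw).contMDiffAt.mdifferentiableAt (by simp)
    have h1 : mfderiv (𝓡 (m + 1)) (𝓡 (m + 1)) (fun w => ρ (κ (f (A w)))) w =
        (mfderiv (𝓡 a) (𝓡 (m + 1)) ρ (κ (f (A w)))).comp
          (mfderiv (𝓡 (m + 1)) (𝓡 a) (fun w => κ (f (A w))) w) :=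
      mfderiv_comp (I' := 𝓡 a) (g := ρ) (f := fun w => κ (f (A w))) w
        ((hρ _).mdifferentiableAt (by simp)) hcd
    have h2 : mfderiv (𝓡 (m + 1)) (𝓡 (m + 1)) (fun w => f (A w)) w =
        (mfderiv (𝓡 (m + 1)) (𝓡 (m + 1)) f (A w)).comp
          (mfderiv (𝓡 (m + 1)) (𝓡 (m + 1)) A w) :=
      mfderiv_comp (I' := 𝓡 (m + 1)) (g := f) (f := A) w
        (hM.smf.mdifferentiableAt (by simp)) hw.mdifferentiableAt
    have h3 : (fun w => ρ (κ (f (A w)))) = fun w => f (A w) := funext fun w => hκ.ret _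
    have h4 : (mfderiv (𝓡 (m + 1)) (𝓡 (m + 1)) (fun w => ρ (κ (f (A w)))) w ζ : E (m + 1)) =
        mfderiv (𝓡 (m + 1)) (𝓡 (m + 1)) (fun w => f (A w)) w ζ :=
      congrArg (fun g : E (m + 1) → Y => (mfderiv (𝓡 (m + 1)) (𝓡 (m + 1)) g w ζ : E (m + 1))) h3
    rw [h1, h2] at h4
    rw [← mfderiv_eq_fderiv]
    exact h4
  have hH : ∀ w, LD (m + 1) A w → ContDiffAt ℝ ∞ (Hc c A ρ) (w, κ (f (A w))) := fun w hw =>
    Hc_smooth hM.smc hw (hρ _)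
  refine local_inj (fun u => κ (ρ u)) (fun w => κ (f (A w))) (fun w => VV c κ ρ f (A w))
    (Hc c A ρ) z ?_ (Pool.Agent.L7h8.NF.c_smooth hκ hM.smf hA) (hH z hA) ?_ ?_ ?_ ?_ ?_
  · exact contMDiffAt_iff_contDiffAt.1 (hκ.smk.contMDiffAt.comp _ (hρ _))
  · exact Filter.Eventually.of_forall fun w => by simp only [hκ.ret]
  · exact Filter.Eventually.of_forall fun p => by simp only [Hc, hκ.ret]
  · filter_upwards [hA.eventually] with w hw
    unfold VV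
    rw [(KK_slice ((hH w hw).differentiableAt (by simp))).fderiv.symm]
    rfl
  · filter_upwards [hA.eventually] with w hw ζ
    have h1 := mixed_eq (n := m + 1) hM.smc hw (hρ (f (A w))) ζ
      (fderiv ℝ (fun w => κ (f (A w))) w ζ)
    rw [← h1, hDρ w hw, hκ.ret]
    exact hM.le _ _
  · intro ζ hζ h0 hz0
    have hAζ : (mfderiv (𝓡 (m + 1)) (𝓡 (m + 1)) A z ζ : E (m + 1)) ≠ 0 := by
      intro h1
      apply hζ
      apply hA.mfderiv_injective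
      exact h1.trans (map_zero (mfderiv (𝓡 (m + 1)) (𝓡 (m + 1)) A z)).symm
    have hf0 : (mfderiv (𝓡 (m + 1)) (𝓡 (m + 1)) f (A z)
        (mfderiv (𝓡 (m + 1)) (𝓡 (m + 1)) A z ζ) : E (m + 1)) = 0 := by
      rw [← hDρ z hA ζ, h0]
      exact map_zero (mfderiv (𝓡 a) (𝓡 (m + 1)) ρ (κ (f (A z))))
    obtain ⟨u, hu⟩ := hM.nd (A z) _ hAζ hf0
    apply hu
    -- `u = D ρ (D κ u)`
    have h1 : mfderiv (𝓡 (m + 1)) (𝓡 (m + 1)) (fun y => ρ (κ y)) (f (A z)) =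
        (mfderiv (𝓡 a) (𝓡 (m + 1)) ρ (κ (f (A z)))).comp
          (mfderiv (𝓡 (m + 1)) (𝓡 a) κ (f (A z))) :=
      mfderiv_comp (I' := 𝓡 a) (g := ρ) (f := κ) (f (A z))
        ((hρ _).mdifferentiableAt (by simp)) (hκ.smk.mdifferentiableAt (by simp))
    have h3 : (fun y => ρ (κ y)) = (id : Y → Y) := funext fun y => hκ.ret y
    have h4 : (mfderiv (𝓡 (m + 1)) (𝓡 (m + 1)) (fun y => ρ (κ y)) (f (A z)) u : E (m + 1)) = u := by
      have h5 := congrArg (fun g : Y → Y =>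
        (mfderiv (𝓡 (m + 1)) (𝓡 (m + 1)) g (f (A z)) u : E (m + 1))) h3
      refine h5.trans ?_
      simp only [mfderiv_id]
      rfl
    rw [h1] at h4
    have h6 := mixed_eq (n := m + 1) hM.smc hA (hρ (f (A z))) ζ
      (mfderiv (𝓡 (m + 1)) (𝓡 a) κ (f (A z)) u)
    have h7 : (mfderiv (𝓡 a) (𝓡 (m + 1)) ρ (κ (f (A z)))
        (mfderiv (𝓡 (m + 1)) (𝓡 a) κ (f (A z)) u) : E (m + 1)) = u := h4
    rw [h7, hκ.ret] at h6
    rw [h6]
    have h8 := congrArg (fun T : E a →L[ℝ] ℝ => T (mfderiv (𝓡 (m + 1)) (𝓡 a) κ (f (A z)) u)) hz0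
    exact h8

/-- the section is smooth -/
theorem VV_smooth [IsManifold (𝓡 (m + 1)) ∞ X] [IsManifold (𝓡 (m + 1)) ∞ Y]
    (hκ : Ret (m := m) κ ρ U) (hM : Mono (m := m) c f) :
    ContMDiff (𝓡 (m + 1)) (𝓡 a) ∞ (VV c κ ρ f) := by
  intro x
  obtain ⟨p, A, hp, hp0, hA, hA0, hAp, -⟩ := Pool.Agent.L7h21.LM.exists_coord (n := m + 1) x
  have h1 := (step hκ hM hA).1
  have h2 : ContMDiffAt (𝓡 (m + 1)) (𝓡 a) ∞ (fun w => VV c κ ρ f (A w)) (p x) := by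
    rw [hp0]
    exact contMDiffAt_iff_contDiffAt.2 h1
  have h3 := h2.comp x hp.contMDiffAt
  refine h3.congr_of_eventuallyEq ?_
  filter_upwards [hAp] with y hy
  simp only [Function.comp, hy]

theorem core [T2Space X] [CompactSpace X] [IsManifold (𝓡 (m + 1)) ∞ X]
    [IsManifold (𝓡 (m + 1)) ∞ Y] (hκ : Ret (m := m) κ ρ U) (hM : Mono (m := m) c f)
    {O : Set (X × Y)} (hO : IsOpen O) (hfO : ∀ x, (x, f x) ∈ O) :
    ∃ G : X → Y, (∀ x, LD (m + 1) G x) ∧ ∀ x, (x, G x) ∈ O := by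
  have hVs := VV_smooth hκ hM
  set V := VV c κ ρ f with hV
  have hfc : Continuous f := hM.smf.continuous
  have hκc : Continuous κ := hκ.smk.continuous
  have hVc : Continuous V := hVs.continuous
  -- the local statement
  have hloc : ∀ x : X, ∃ W ∈ 𝓝 x, ∃ η : ℝ, 0 < η ∧ ∀ y ∈ W, ∀ ε : ℝ, 0 < ε → ε < η →
      (κ (f y) + ε • V y ∈ U ∧ (y, GY κ ρ f V ε y) ∈ O) ∧
      ∀ G : X → Y, G = GY κ ρ f V ε → ContMDiff (𝓡 (m + 1)) (𝓡 (m + 1)) ∞ G →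
        Injective (mfderiv (𝓡 (m + 1)) (𝓡 (m + 1)) G y) := by
    intro x
    obtain ⟨p, A, hp, hp0, hA, hA0, hAp, -⟩ := Pool.Agent.L7h21.LM.exists_coord (n := m + 1) x
    obtain ⟨W', hW', η', hη', h'⟩ := local_OY hκ hfc hVc hO x (hfO x)
    have h2 := (step hκ hM hA).2
    obtain ⟨η, hη, hev⟩ := ev_split (h2.and (((continuous_snd.continuousAt
      (x := ((0 : ℝ), (0 : E (m + 1))))).eventually hA.eventually)))
    have hU : ∀ᶠ q : ℝ × X in 𝓝 (0, x), κ (f q.2) + q.1 • V q.2 ∈ U := by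
      have hc0 : Continuous (fun q : ℝ × X => κ (f q.2) + q.1 • V q.2) := by fun_prop
      refine hc0.continuousAt.eventually (hκ.op.mem_nhds ?_)
      simp only [zero_smul, add_zero]
      exact hκ.mem _
    obtain ⟨η'', hη'', hev''⟩ := ev_split hU
    have hAn : A '' {w | ∀ ε : ℝ, |ε| < η → (0 < ε → Injective (PP (Ph (fun u => κ (ρ u))
        (fun w => κ (f (A w))) (fun w => VV c κ ρ f (A w))) ε w)) ∧ LD (m + 1) A w} ∈ 𝓝 x := by
      rw [← hA0]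
      exact hA.image_mem_nhds hev
    refine ⟨_, inter_mem hAn (inter_mem hW' hev''), min η (min η' η''),
      lt_min hη (lt_min hη' hη''), ?_⟩
    rintro y ⟨⟨w, hw, rfl⟩, hy', hy''⟩ ε h0 h1
    have l1 : ε < η := h1.trans_le (min_le_left _ _)
    have l2 : ε < η' := h1.trans_le ((min_le_right _ _).trans (min_le_left _ _))
    have l3 : ε < η'' := h1.trans_le ((min_le_right _ _).trans (min_le_right _ _))
    refine ⟨⟨hy'' ε (by rw [abs_of_pos h0]; exact l3), h' _ hy' ε h0 l2⟩, ?_⟩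
    rintro G rfl hG
    obtain ⟨hi, hAw⟩ := hw ε (by rw [abs_of_pos h0]; exact l1)
    have hinj := hi h0
    -- the derivative of `κ ∘ G ∘ A`
    have hGd : MDifferentiableAt (𝓡 (m + 1)) (𝓡 (m + 1)) (GY κ ρ f V ε) (A w) :=
      hG.mdifferentiableAt (by simp)
    have hUw : κ (f (A w)) + ε • V (A w) ∈ U := hy'' ε (by rw [abs_of_pos h0]; exact l3)
    have hvs : ContDiffAt ℝ ∞ (fun w => VV c κ ρ f (A w)) w := (step hκ hM hAw).1
    have hcs := Pool.Agent.L7h8.NF.c_smooth hκ hM.smf hAw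
    have hPhd : DifferentiableAt ℝ (Ph (fun u => κ (ρ u)) (fun w => κ (f (A w)))
        (fun w => VV c κ ρ f (A w))) (ε, w) := by
      have hR : ContDiffAt ℝ ∞ (fun u => κ (ρ u)) (κ (f (A w)) + ε • V (A w)) :=
        contMDiffAt_iff_contDiffAt.1 (hκ.smk.contMDiffAt.comp _ (hκ.smr _ hUw))
      have q1 : ContDiffAt ℝ ∞ (fun p : ℝ × E (m + 1) => κ (f (A p.2))) (ε, w) :=
        ContDiffAt.comp (g := fun w => κ (f (A w))) (f := fun p : ℝ × E (m + 1) => p.2) (ε, w)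
          hcs contDiffAt_snd
      have q2 : ContDiffAt ℝ ∞ (fun p : ℝ × E (m + 1) => VV c κ ρ f (A p.2)) (ε, w) :=
        ContDiffAt.comp (g := fun w => VV c κ ρ f (A w)) (f := fun p : ℝ × E (m + 1) => p.2)
          (ε, w) hvs contDiffAt_snd
      have q3 : ContDiffAt ℝ ∞ (fun p : ℝ × E (m + 1) => κ (f (A p.2)) +
          p.1 • VV c κ ρ f (A p.2)) (ε, w) := q1.add (contDiffAt_fst.smul q2)
      exact (ContDiffAt.comp (g := fun u => κ (ρ u)) (f := fun p : ℝ × E (m + 1) =>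
        κ (f (A p.2)) + p.1 • VV c κ ρ f (A p.2)) (ε, w) hR q3).differentiableAt (by simp)
    have hfd := PP_fderiv hPhd
    have hD1 : mfderiv (𝓡 (m + 1)) (𝓡 (m + 1)) (fun w => GY κ ρ f V ε (A w)) w =
        (mfderiv (𝓡 (m + 1)) (𝓡 (m + 1)) (GY κ ρ f V ε) (A w)).comp
          (mfderiv (𝓡 (m + 1)) (𝓡 (m + 1)) A w) :=
      mfderiv_comp (I' := 𝓡 (m + 1)) (g := GY κ ρ f V ε) (f := A) w hGd hAw.mdifferentiableAt
    have hGAd : MDifferentiableAt (𝓡 (m + 1)) (𝓡 (m + 1)) (fun w => GY κ ρ f V ε (A w)) w :=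
      MDifferentiableAt.comp (I' := 𝓡 (m + 1)) w (g := GY κ ρ f V ε) (f := A) hGd
        hAw.mdifferentiableAt
    have hD2 : mfderiv (𝓡 (m + 1)) (𝓡 a) (fun w => κ (GY κ ρ f V ε (A w))) w =
        (mfderiv (𝓡 (m + 1)) (𝓡 a) κ (GY κ ρ f V ε (A w))).comp
          (mfderiv (𝓡 (m + 1)) (𝓡 (m + 1)) (fun w => GY κ ρ f V ε (A w)) w) :=
      mfderiv_comp (I' := 𝓡 (m + 1)) (g := κ) (f := fun w => GY κ ρ f V ε (A w)) w
        (hκ.smk.mdifferentiableAt (by simp)) hGAd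
    rw [mfderiv_eq_fderiv] at hD2
    have hfun : (fun w => Ph (fun u => κ (ρ u)) (fun w => κ (f (A w)))
        (fun w => VV c κ ρ f (A w)) (ε, w)) = fun w => κ (GY κ ρ f V ε (A w)) := rfl
    rw [hfun] at hfd
    rw [hfd.fderiv, hD1] at hD2
    have key : ∀ v : E (m + 1),
        (mfderiv (𝓡 (m + 1)) (𝓡 (m + 1)) (GY κ ρ f V ε) (A w) v : E (m + 1)) = 0 → v = 0 := by
      intro v hv
      obtain ⟨ζ, hζ⟩ := Pool.Agent.L7h21.LM.LD_surj hAw v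
      have h3 := congrArg (fun T : E (m + 1) →L[ℝ] E a => T ζ) hD2
      have h4 : PP (Ph (fun u => κ (ρ u)) (fun w => κ (f (A w)))
          (fun w => VV c κ ρ f (A w))) ε w ζ = 0 := by
        refine h3.trans ?_
        change mfderiv (𝓡 (m + 1)) (𝓡 a) κ (GY κ ρ f V ε (A w))
          (mfderiv (𝓡 (m + 1)) (𝓡 (m + 1)) (GY κ ρ f V ε) (A w)
            (mfderiv (𝓡 (m + 1)) (𝓡 (m + 1)) A w ζ)) = 0
        rw [hζ, hv]
        exact map_zero _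
      have h5 : ζ = 0 := hinj (h4.trans (map_zero _).symm)
      rw [← hζ, h5]
      exact map_zero _
    exact (injective_iff_map_eq_zero _).2 key
  -- compactness
  have hp : ∃ η : ℝ, 0 < η ∧ ∀ y ∈ (univ : Set X), ∀ ε : ℝ, 0 < ε → ε < η →
      (κ (f y) + ε • V y ∈ U ∧ (y, GY κ ρ f V ε y) ∈ O) ∧
      ∀ G : X → Y, G = GY κ ρ f V ε → ContMDiff (𝓡 (m + 1)) (𝓡 (m + 1)) ∞ G →
        Injective (mfderiv (𝓡 (m + 1)) (𝓡 (m + 1)) G y) := by
    refine isCompact_univ.induction_on (p := fun s => ∃ η : ℝ, 0 < η ∧ ∀ y ∈ s, ∀ ε : ℝ,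
      0 < ε → ε < η → (κ (f y) + ε • V y ∈ U ∧ (y, GY κ ρ f V ε y) ∈ O) ∧
      ∀ G : X → Y, G = GY κ ρ f V ε → ContMDiff (𝓡 (m + 1)) (𝓡 (m + 1)) ∞ G →
        Injective (mfderiv (𝓡 (m + 1)) (𝓡 (m + 1)) G y)) ?_ ?_ ?_ ?_
    · exact ⟨1, one_pos, fun y hy => absurd hy (notMem_empty y)⟩
    · rintro s t hst ⟨η, hη, h⟩
      exact ⟨η, hη, fun y hy => h y (hst hy)⟩
    · rintro s t ⟨η, hη, h⟩ ⟨η', hη', h'⟩
      refine ⟨min η η', lt_min hη hη', ?_⟩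
      rintro y (hy | hy) ε h0 h1
      · exact h y hy ε h0 (h1.trans_le (min_le_left _ _))
      · exact h' y hy ε h0 (h1.trans_le (min_le_right _ _))
    · intro x _
      obtain ⟨W, hW, η, hη, h⟩ := hloc x
      exact ⟨W, mem_nhdsWithin_of_mem_nhds hW, η, hη, h⟩
  obtain ⟨η, hη, h⟩ := hp
  have hG : ContMDiff (𝓡 (m + 1)) (𝓡 (m + 1)) ∞ (GY κ ρ f V (η / 2)) := by
    intro y
    have h1 : κ (f y) + (η / 2) • V y ∈ U := (h y (mem_univ _) (η / 2) (by linarith)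
      (by linarith)).1.1
    have h2 : ContMDiff (𝓡 (m + 1)) (𝓡 a) ∞ (fun y => κ (f y) + (η / 2) • V y) := by
      have h3 : ContMDiff (𝓡 (m + 1)) (𝓡 a) ∞ (fun y => κ (f y)) := hκ.smk.comp hM.smf
      have h4 : ContMDiff (𝓡 (m + 1)) (𝓡 a) ∞ (fun y => (η / 2) • V y) := by
        have h5 : ContMDiff (𝓡 a) (𝓡 a) ∞ (fun v : E a => (η / 2) • v) :=
          (contDiff_const_smul (η / 2)).contMDiff
        exact h5.comp hVs
      exact h3.add h4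
    exact (hκ.smr _ h1).comp y h2.contMDiffAt
  refine ⟨GY κ ρ f V (η / 2), fun x => ?_, fun x => (h x (mem_univ _) (η / 2) (by linarith)
    (by linarith)).1.2⟩
  exact Pool.Agent.Y761.CI.LD_of_injective _ hG x
    ((h x (mem_univ _) (η / 2) (by linarith) (by linarith)).2 _ rfl hG)

end Pool.Agent.L7h20.MO
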