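import Pool.Agent.L7h20.MO.Calc

/-!
# Project MO: the local step
-/

set_option autoImplicit false

open Set Filter Topology Metric Function
open scoped Manifold ContDiff

noncomputable section

namespace Pool.Agent.L7h20.MO

open Pool.Agent.Y522

variable {n a : ℕ}

/-- the partial derivative of `H` in the second variable -/
def KK (H : E n × E a → ℝ) (p : E n × E a) : E a →L[ℝ] ℝ :=
  (fderiv ℝ H p).comp (ContinuousLinearMap.inr ℝ (E n) (E a))

/-- the identification of functionals and vectors -/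
def sh (a : ℕ) : (E a →L[ℝ] ℝ) →L[ℝ] E a :=
  LinearMap.toContinuousLinearMap
    { toFun := fun φ => (InnerProductSpace.toDual ℝ (E a)).symm φ
      map_add' := fun φ ψ => map_add _ φ ψ
      map_smul' := fun r φ => by simp }

theorem inner_sh (φ : E a →L[ℝ] ℝ) (x : E a) : inner ℝ x (sh a φ) = φ x := by
  rw [real_inner_comm]
  exact InnerProductSpace.toDual_symm_apply (𝕜 := ℝ) (E := E a)

theorem local_inj (R : E a → E a) (c v : E n → E a) (H : E n × E a → ℝ) (z : E n)
    (hR : ContDiffAt ℝ ∞ R (c z)) (hc : ContDiffAt ℝ ∞ c z) (hH : ContDiffAt ℝ ∞ H (z, c z))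
    (hRc : ∀ᶠ w in 𝓝 z, R (c w) = c w)
    (hHR : ∀ᶠ p in 𝓝 (z, c z), H (p.1, R p.2) = H p)
    (hv : ∀ᶠ w in 𝓝 z, v w = - sh a (KK H (w, c w)))
    (hmono : ∀ᶠ w in 𝓝 z, ∀ ζ, fderiv ℝ (KK H) (w, c w) (ζ, 0) (fderiv ℝ c w ζ) ≤ 0)
    (hnd : ∀ ζ, ζ ≠ 0 → fderiv ℝ c z ζ = 0 → fderiv ℝ (KK H) (z, c z) (ζ, 0) ≠ 0) :
    ContDiffAt ℝ ∞ v z ∧
    ∀ᶠ p : ℝ × E n in 𝓝 (0, z), 0 < p.1 → Injective (PP (Ph R c v) p.1 p.2) := by
  -- smoothness
  have hKs : ContDiffAt ℝ ∞ (KK H) (z, c z) := by
    unfold KK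
    exact (hH.fderiv_right (m := ∞) (by simp)).clm_comp contDiffAt_const
  have hgr : ContDiffAt ℝ ∞ (fun w => (w, c w)) z := contDiffAt_id.prodMk hc
  have hKc : ContDiffAt ℝ ∞ (fun w => KK H (w, c w)) z :=
    ContDiffAt.comp (g := KK H) (f := fun w => (w, c w)) z hKs hgr
  have hv' : ContDiffAt ℝ ∞ (fun w => - sh a (KK H (w, c w))) z :=
    ((sh a).contDiff.contDiffAt.comp z hKc).neg
  have hvs : ContDiffAt ℝ ∞ v z := hv'.congr_of_eventuallyEq hv
  refine ⟨hvs, ?_⟩
  have hΦ : ContDiffAt ℝ ∞ (Ph R c v) (0, z) := Ph_smooth hR hc hvs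
  have hΦ2 : ContDiffAt ℝ 2 (Ph R c v) (0, z) :=
    hΦ.of_le (WithTop.coe_le_coe.2 (le_top : (2:ℕ∞) ≤ ⊤))
  have hΦev : ∀ᶠ p in 𝓝 ((0:ℝ), z), ContDiffAt ℝ 2 (Ph R c v) p := hΦ2.eventually (by simp)
  have hcz : ContinuousAt (fun w : E n => ((0:ℝ), w)) z := by fun_prop
  -- `P 0`
  have hP0 : ∀ᶠ w in 𝓝 z, PP (Ph R c v) 0 w = fderiv ℝ c w := by
    filter_upwards [hcz.eventually hΦev, hRc.eventually_nhds] with w hw hw2
    have h1 := PP_fderiv (hw.differentiableAt (by norm_num))
    have h2 : (fun w => Ph R c v (0, w)) =ᶠ[𝓝 w] c := by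
      filter_upwards [hw2] with y hy
      simp only [Ph, zero_smul, add_zero]
      exact hy
    rw [← h1.fderiv, h2.fderiv_eq]
  let L : E n → E n →L[ℝ] E a := fun w =>
    -((sh a).comp ((fderiv ℝ (KK H) (w, c w)).comp (ContinuousLinearMap.inl ℝ (E n) (E a))))
  have hLi : ∀ w ζ x, inner ℝ x (L w ζ) = - (fderiv ℝ (KK H) (w, c w) (ζ, 0) x) := by
    intro w ζ x
    simp only [L, neg_apply, ContinuousLinearMap.comp_apply,
      ContinuousLinearMap.inl_apply, inner_neg_right]
    rw [inner_sh]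
  have hLc : ContinuousAt L z := by
    have h1 : ContinuousAt (fderiv ℝ (KK H)) (z, c z) :=
      (hKs.fderiv_right (m := ∞) (by simp)).continuousAt
    have h2 : ContinuousAt (fun w => fderiv ℝ (KK H) (w, c w)) z :=
      ContinuousAt.comp (f := fun w => (w, c w)) h1 hgr.continuousAt
    exact (continuousAt_const.clm_comp (h2.clm_comp continuousAt_const)).neg
  refine pair (PP (Ph R c v)) (PP' (Ph R c v)) L z (PP_cont hΦ2) (PP'_cont hΦ2) ?_ hLc ?_ ?_
  · filter_upwards [hΦev] with p hp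
    exact PP_deriv hp
  · filter_upwards [hP0, hmono] with w h1 h2 ζ
    rw [h1, hLi]
    have := h2 ζ
    linarith
  · intro ζ hζ hPζ
    have hcζ : fderiv ℝ c z ζ = 0 := by rw [← hP0.self_of_nhds]; exact hPζ
    have hRd : DifferentiableAt ℝ (fderiv ℝ R) (c z) :=
      (hR.fderiv_right (m := ∞) (by simp)).differentiableAt (by simp)
    have hcd : DifferentiableAt ℝ c z := hc.differentiableAt (by simp)
    have hvd : DifferentiableAt ℝ v z := hvs.differentiableAt (by simp)
    have hKd : DifferentiableAt ℝ (KK H) (z, c z) := hKs.differentiableAt (by simp)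
    -- the derivative of `v`
    have hDv : fderiv ℝ v z ζ = L z ζ := by
      have e1 : HasFDerivAt (fun w => (w, c w))
          ((ContinuousLinearMap.id ℝ (E n)).prod (fderiv ℝ c z)) z :=
        (hasFDerivAt_id z).prodMk hcd.hasFDerivAt
      have e2 : HasFDerivAt (fun w => KK H (w, c w))
          ((fderiv ℝ (KK H) (z, c z)).comp ((ContinuousLinearMap.id ℝ (E n)).prod (fderiv ℝ c z)))
          z := HasFDerivAt.comp (g := KK H) (f := fun w => (w, c w)) z hKd.hasFDerivAt e1
      have e3 : HasFDerivAt (fun w => - sh a (KK H (w, c w)))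
          (-((sh a).comp ((fderiv ℝ (KK H) (z, c z)).comp
            ((ContinuousLinearMap.id ℝ (E n)).prod (fderiv ℝ c z))))) z :=
        ((sh a).hasFDerivAt.comp z e2).neg
      have e4 : fderiv ℝ v z = _ := (Filter.EventuallyEq.fderiv_eq hv).trans e3.fderiv
      rw [e4]
      simp only [L, neg_apply, ContinuousLinearMap.comp_apply,
        ContinuousLinearMap.inl_apply, ContinuousLinearMap.prod_apply, ContinuousLinearMap.id_apply,
        hcζ]
    have hP' : PP' (Ph R c v) 0 z ζ = fderiv ℝ R (c z) (L z ζ) := by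
      rw [PP'_eq hR hc hvs]
      have e1 : HasFDerivAt (fun w => fderiv ℝ R (c w))
          ((fderiv ℝ (fderiv ℝ R) (c z)).comp (fderiv ℝ c z)) z :=
        HasFDerivAt.comp (g := fderiv ℝ R) (f := c) z hRd.hasFDerivAt hcd.hasFDerivAt
      have e2 := e1.clm_apply hvd.hasFDerivAt
      rw [e2.fderiv]
      simp [hcζ, hDv]
    have hg : L z ζ ≠ 0 := by
      intro h0
      apply hnd ζ hζ hcζ
      ext x
      have := hLi z ζ x
      rw [h0, inner_zero_right] at this
      simp only [zero_apply]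
      linarith
    -- invariance
    have hinv : ∀ ξ : E a, fderiv ℝ (KK H) (z, c z) (ζ, 0) (fderiv ℝ R (c z) ξ) =
        fderiv ℝ (KK H) (z, c z) (ζ, 0) ξ := by
      intro ξ
      have hHev : ∀ᶠ p in 𝓝 (z, c z), ContDiffAt ℝ 2 H p :=
        (hH.of_le (WithTop.coe_le_coe.2 (le_top : (2:ℕ∞) ≤ ⊤))).eventually (by simp)
      have hsl : ContinuousAt (fun w : E n => (w, c z)) z := by fun_prop
      have hRcz : R (c z) = c z := hRc.self_of_nhds
      have e1 : ∀ᶠ w in 𝓝 z, KK H (w, c z) (fderiv ℝ R (c z) ξ) = KK H (w, c z) ξ := by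
        filter_upwards [hsl.eventually hHev, hsl.eventually hHR.eventually_nhds] with w hw1 hw2
        have hd : DifferentiableAt ℝ H (w, c z) := hw1.differentiableAt (by norm_num)
        have f1 : HasFDerivAt (fun u => H (w, u)) (KK H (w, c z)) (c z) :=
          hd.hasFDerivAt.comp (c z) (hasFDerivAt_prodMk_right w (c z))
        have f2 : HasFDerivAt (fun u => H (w, R u)) ((KK H (w, c z)).comp (fderiv ℝ R (c z)))
            (c z) := by
          have f1' : HasFDerivAt (fun u => H (w, u)) (KK H (w, c z)) (R (c z)) := by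
            rw [hRcz]
            exact f1
          exact HasFDerivAt.comp (g := fun u => H (w, u)) (f := R) (c z) f1'
            (hR.differentiableAt (by simp)).hasFDerivAt
        have f3 : (fun u => H (w, R u)) =ᶠ[𝓝 (c z)] fun u => H (w, u) := by
          have hs2 : ContinuousAt (fun u : E a => (w, u)) (c z) := by fun_prop
          filter_upwards [hs2.eventually hw2] with u hu
          exact hu
        have f4 := (f2.congr_of_eventuallyEq f3.symm).unique f1
        have f5 := congrArg (fun T : E a →L[ℝ] ℝ => T ξ) f4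
        exact f5
      have e2 : ∀ x : E a, HasFDerivAt (fun w : E n => KK H (w, c z) x)
          ((ContinuousLinearMap.apply ℝ ℝ x).comp ((fderiv ℝ (KK H) (z, c z)).comp
            (ContinuousLinearMap.inl ℝ (E n) (E a)))) z := by
        intro x
        have g1 : HasFDerivAt (fun w : E n => KK H (w, c z))
            ((fderiv ℝ (KK H) (z, c z)).comp (ContinuousLinearMap.inl ℝ (E n) (E a))) z :=
          HasFDerivAt.comp (g := KK H) (f := fun w : E n => (w, c z)) z hKd.hasFDerivAt
            (hasFDerivAt_prodMk_left z (c z))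
        exact (ContinuousLinearMap.apply ℝ ℝ x).hasFDerivAt.comp z g1
      have e3 := ((e2 (fderiv ℝ R (c z) ξ)).congr_of_eventuallyEq
        (e1.mono fun w hw => hw.symm)).unique (e2 ξ)
      have e4 := congrArg (fun T : E n →L[ℝ] ℝ => T ζ) e3
      simpa using e4
    rw [hP', hLi, hinv, ← hLi, real_inner_self_eq_norm_sq]
    positivity

end Pool.Agent.L7h20.MO
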