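import Pool.Agent.L7h20.MO.Local
import Pool.Agent.L7h21.LM.Boxes
import Pool.Agent.L7h20.NF.Stm3

/-!
# Project MO: the mixed derivative in coordinates
-/

set_option autoImplicit false

open Set Filter Topology Metric Function
open scoped Manifold ContDiff

noncomputable section

namespace Pool.Agent.L7h20.MO

open Pool.Agent.Y522

variable {n : ℕ} {X Y : Type} [TopologicalSpace X] [ChartedSpace (E n) X]
  [TopologicalSpace Y] [ChartedSpace (E n) Y]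

/-- the derivative of `c x` at `y` in the direction `u` -/
def dY (c : X → Y → ℝ) (y : Y) (u : E n) (x : X) : ℝ := mfderiv (𝓡 n) 𝓘(ℝ, ℝ) (c x) y u

/-- the mixed second derivative of `c` at `(x, y)` in the directions `v`, `u` -/
def mixed (c : X → Y → ℝ) (x : X) (y : Y) (v u : E n) : ℝ :=
  mfderiv (𝓡 n) 𝓘(ℝ, ℝ) (dY (n := n) c y u) x v

variable {a : ℕ} {c : X → Y → ℝ} {A : E n → X} {ρ : E a → Y}

/-- `c` in coordinates -/
def Hc (c : X → Y → ℝ) (A : E n → X) (ρ : E a → Y) (p : E n × E a) : ℝ := c (A p.1) (ρ p.2)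

theorem Hc_smooth (hc : ContMDiff ((𝓡 n).prod (𝓡 n)) 𝓘(ℝ, ℝ) ∞ (fun p : X × Y => c p.1 p.2))
    {w : E n} {u : E a} (hA : LD n A w) (hρ : ContMDiffAt (𝓡 a) (𝓡 n) ∞ ρ u) :
    ContDiffAt ℝ ∞ (Hc c A ρ) (w, u) := by
  rw [← contMDiffAt_iff_contDiffAt]
  have h1 : ContMDiffAt 𝓘(ℝ, E n × E a) (𝓡 n) ∞ (fun p : E n × E a => A p.1) (w, u) :=
    ContMDiffAt.comp (I' := 𝓡 n) (g := A) (f := fun p : E n × E a => p.1) (w, u) hA.contMDiffAt
      contDiff_fst.contMDiff.contMDiffAt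
  have h2 : ContMDiffAt 𝓘(ℝ, E n × E a) (𝓡 n) ∞ (fun p : E n × E a => ρ p.2) (w, u) :=
    ContMDiffAt.comp (I' := 𝓡 a) (g := ρ) (f := fun p : E n × E a => p.2) (w, u) hρ
      contDiff_snd.contMDiff.contMDiffAt
  exact ContMDiffAt.comp (I' := (𝓡 n).prod (𝓡 n)) (g := fun p : X × Y => c p.1 p.2)
    (f := fun p : E n × E a => (A p.1, ρ p.2)) (w, u) hc.contMDiffAt (h1.prodMk h2)

theorem KK_slice {H : E n × E a → ℝ} {w : E n} {u : E a} (h : DifferentiableAt ℝ H (w, u)) :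
    HasFDerivAt (fun u => H (w, u)) (KK H (w, u)) u :=
  HasFDerivAt.comp (g := H) (f := fun u : E a => (w, u)) u h.hasFDerivAt
    (hasFDerivAt_prodMk_right w u)

theorem mixed_eq [IsManifold (𝓡 n) ∞ X]
    (hc : ContMDiff ((𝓡 n).prod (𝓡 n)) 𝓘(ℝ, ℝ) ∞ (fun p : X × Y => c p.1 p.2))
    {w : E n} {u0 : E a} (hA : LD n A w) (hρ : ContMDiffAt (𝓡 a) (𝓡 n) ∞ ρ u0)
    (ζ : E n) (ξ : E a) :
    mixed c (A w) (ρ u0) (mfderiv (𝓡 n) (𝓡 n) A w ζ) (mfderiv (𝓡 a) (𝓡 n) ρ u0 ξ) =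
      fderiv ℝ (KK (Hc c A ρ)) (w, u0) (ζ, 0) ξ := by
  have hHs := Hc_smooth hc hA hρ
  -- the function `w ↦ D c (A w) (ρ u0)` along `D ρ ξ`
  have key : ∀ᶠ w' in 𝓝 w, dY (n := n) c (ρ u0) (mfderiv (𝓡 a) (𝓡 n) ρ u0 ξ) (A w') =
      KK (Hc c A ρ) (w', u0) ξ := by
    filter_upwards [hA.eventually] with w' hw'
    have h1 : HasFDerivAt (fun u => c (A w') (ρ u)) (KK (Hc c A ρ) (w', u0)) u0 :=
      KK_slice ((Hc_smooth hc hw' hρ).differentiableAt (by simp))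
    have h2 : MDifferentiableAt (𝓡 n) 𝓘(ℝ, ℝ) (c (A w')) (ρ u0) := by
      have h3 : ContMDiff (𝓡 n) 𝓘(ℝ, ℝ) ∞ (fun y : Y => c (A w') y) :=
        hc.comp (contMDiff_const.prodMk contMDiff_id)
      exact h3.mdifferentiableAt (by simp)
    have h4 : mfderiv (𝓡 a) 𝓘(ℝ, ℝ) (fun u => c (A w') (ρ u)) u0 =
        (mfderiv (𝓡 n) 𝓘(ℝ, ℝ) (c (A w')) (ρ u0)).comp (mfderiv (𝓡 a) (𝓡 n) ρ u0) :=
      mfderiv_comp (I' := 𝓡 n) (g := c (A w')) (f := ρ) u0 h2 (hρ.mdifferentiableAt (by simp))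
    rw [mfderiv_eq_fderiv, h1.fderiv] at h4
    have h5 := congrArg (fun T : E a →L[ℝ] ℝ => T ξ) h4
    exact h5.symm
  -- the derivative of the right side
  have hKs : ContDiffAt ℝ ∞ (KK (Hc c A ρ)) (w, u0) := by
    unfold KK
    exact (hHs.fderiv_right (m := ∞) (by simp)).clm_comp contDiffAt_const
  have hk : HasFDerivAt (fun w' : E n => KK (Hc c A ρ) (w', u0) ξ)
      ((ContinuousLinearMap.apply ℝ ℝ ξ).comp ((fderiv ℝ (KK (Hc c A ρ)) (w, u0)).comp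
        (ContinuousLinearMap.inl ℝ (E n) (E a)))) w := by
    have g1 : HasFDerivAt (fun w' : E n => KK (Hc c A ρ) (w', u0))
        ((fderiv ℝ (KK (Hc c A ρ)) (w, u0)).comp (ContinuousLinearMap.inl ℝ (E n) (E a))) w :=
      HasFDerivAt.comp (g := KK (Hc c A ρ)) (f := fun w : E n => (w, u0)) w
        (hKs.differentiableAt (by simp)).hasFDerivAt (hasFDerivAt_prodMk_left w u0)
    exact (ContinuousLinearMap.apply ℝ ℝ ξ).hasFDerivAt.comp w g1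
  -- through the inverse of `A`
  obtain ⟨q, hq1, hq2, hq3, hq4⟩ := hA.exists_inverse
  have hg : dY (n := n) c (ρ u0) (mfderiv (𝓡 a) (𝓡 n) ρ u0 ξ) =ᶠ[𝓝 (A w)]
      fun x => (fun w' : E n => KK (Hc c A ρ) (w', u0) ξ) (q x) := by
    have hqc : Tendsto q (𝓝 (A w)) (𝓝 w) := by
      have := hq1.continuousAt.tendsto
      rwa [hq2] at this
    filter_upwards [hqc.eventually key, hq4] with x hx1 hx2
    rw [← hx1, hx2]
  have hk' : MDifferentiableAt (𝓡 n) 𝓘(ℝ, ℝ) (fun w' : E n => KK (Hc c A ρ) (w', u0) ξ)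
      (q (A w)) := by
    rw [hq2]
    exact hk.differentiableAt.mdifferentiableAt
  have e1 : mfderiv (𝓡 n) 𝓘(ℝ, ℝ) (dY (n := n) c (ρ u0) (mfderiv (𝓡 a) (𝓡 n) ρ u0 ξ)) (A w) =
      (mfderiv (𝓡 n) 𝓘(ℝ, ℝ) (fun w' : E n => KK (Hc c A ρ) (w', u0) ξ) (q (A w))).comp
        (mfderiv (𝓡 n) (𝓡 n) q (A w)) := by
    rw [hg.mfderiv_eq]
    exact mfderiv_comp (I' := 𝓡 n) (g := fun w' : E n => KK (Hc c A ρ) (w', u0) ξ) (f := q) (A w)
      hk' hq1.mdifferentiableAt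
  have e2 : mfderiv (𝓡 n) (𝓡 n) q (A w) (mfderiv (𝓡 n) (𝓡 n) A w ζ) = ζ := by
    have h1 : mfderiv (𝓡 n) (𝓡 n) (fun z => q (A z)) w =
        (mfderiv (𝓡 n) (𝓡 n) q (A w)).comp (mfderiv (𝓡 n) (𝓡 n) A w) :=
      mfderiv_comp (I' := 𝓡 n) (g := q) (f := A) w hq1.mdifferentiableAt hA.mdifferentiableAt
    have h2 : (fun z => q (A z)) =ᶠ[𝓝 w] id := hq3
    have h3 : mfderiv (𝓡 n) (𝓡 n) (fun z => q (A z)) w = fderiv ℝ id w := by
      rw [mfderiv_eq_fderiv]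
      exact h2.fderiv_eq
    rw [h3, fderiv_id] at h1
    have h4 := congrArg (fun T : E n →L[ℝ] E n => T ζ) h1
    exact h4.symm
  have e3 : mfderiv (𝓡 n) 𝓘(ℝ, ℝ) (fun w' : E n => KK (Hc c A ρ) (w', u0) ξ) (q (A w)) =
      ((ContinuousLinearMap.apply ℝ ℝ ξ).comp ((fderiv ℝ (KK (Hc c A ρ)) (w, u0)).comp
        (ContinuousLinearMap.inl ℝ (E n) (E a)))) := by
    rw [mfderiv_eq_fderiv, hq2]
    exact hk.fderiv
  unfold mixed
  rw [e1, e3]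
  change (fderiv ℝ (KK (Hc c A ρ)) (w, u0) ((ContinuousLinearMap.inl ℝ (E n) (E a))
    (mfderiv (𝓡 n) (𝓡 n) q (A w) (mfderiv (𝓡 n) (𝓡 n) A w ζ)))) ξ = _
  rw [e2]
  rfl

end Pool.Agent.L7h20.MO
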