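import Pool.Agent.Y522.Tools

/-!
# Project MO (monotone maps): the perturbation lemma
-/

set_option autoImplicit false

open Set Filter Topology Metric Function
open scoped Manifold ContDiff

noncomputable section

namespace Pool.Agent.L7h20.MO

open Pool.Agent.Y522

/-- `P ε w` is a family of linear maps with derivative `P'` in `ε`; `⟨P 0 w v, L w v⟩ ≥ 0` and
`⟨P' 0 z v, L z v⟩ > 0` if `P 0 z v = 0`, `v ≠ 0`. Then `P ε w` is injective for small `ε > 0`, `w` near
`z`. -/
theorem pair {n a : ℕ} (P P' : ℝ → E n → E n →L[ℝ] E a) (L : E n → E n →L[ℝ] E a) (z : E n)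
    (h1 : ContinuousAt (fun p : ℝ × E n => P p.1 p.2) (0, z))
    (h2 : ContinuousAt (fun p : ℝ × E n => P' p.1 p.2) (0, z))
    (h3 : ∀ᶠ p : ℝ × E n in 𝓝 (0, z), HasDerivAt (fun ε => P ε p.2) (P' p.1 p.2) p.1)
    (hL : ContinuousAt L z)
    (hnn : ∀ᶠ w in 𝓝 z, ∀ v, 0 ≤ inner ℝ (P 0 w v) (L w v))
    (hpos : ∀ v, v ≠ 0 → P 0 z v = 0 → 0 < inner ℝ (P' 0 z v) (L z v)) :
    ∀ᶠ p : ℝ × E n in 𝓝 (0, z), 0 < p.1 → Injective (P p.1 p.2) := by
  have key : ∀ v ∈ sphere (0 : E n) 1, ∀ᶠ q : (ℝ × E n) × E n in 𝓝 (((0 : ℝ), z), v),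
      0 < q.1.1 → P q.1.1 q.1.2 q.2 ≠ 0 := by
    intro v hv
    have hv0 : v ≠ 0 := by
      rintro rfl
      simp at hv
    by_cases hP : P 0 z v = 0
    · have hc := hpos v hv0 hP
      -- the pairing of the derivative is positive nearby
      have hcont : ContinuousAt (fun q : (ℝ × E n) × E n =>
          inner ℝ (P' q.1.1 q.1.2 q.2) (L q.1.2 q.2)) (((0 : ℝ), z), v) := by
        have e1 : ContinuousAt (fun q : (ℝ × E n) × E n => P' q.1.1 q.1.2) (((0 : ℝ), z), v) :=
          ContinuousAt.comp (f := fun q : (ℝ × E n) × E n => q.1) (x := (((0 : ℝ), z), v)) h2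
            continuousAt_fst
        have e2 : ContinuousAt (fun q : (ℝ × E n) × E n => L q.1.2) (((0 : ℝ), z), v) :=
          ContinuousAt.comp (f := fun q : (ℝ × E n) × E n => q.1.2) (x := (((0 : ℝ), z), v)) hL
            (by fun_prop)
        exact ContinuousAt.inner (𝕜 := ℝ) (e1.clm_apply continuousAt_snd)
          (e2.clm_apply continuousAt_snd)
      have hev1 : ∀ᶠ q : (ℝ × E n) × E n in 𝓝 (((0 : ℝ), z), v),
          0 < inner ℝ (P' q.1.1 q.1.2 q.2) (L q.1.2 q.2) :=
        hcont.eventually (lt_mem_nhds hc)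
      have hev3 : ∀ᶠ q : (ℝ × E n) × E n in 𝓝 (((0 : ℝ), z), v),
          HasDerivAt (fun ε => P ε q.1.2) (P' q.1.1 q.1.2) q.1.1 :=
        ((by fun_prop : ContinuousAt (fun q : (ℝ × E n) × E n => q.1)
          (((0 : ℝ), z), v))).eventually h3
      have hev4 : ∀ᶠ q : (ℝ × E n) × E n in 𝓝 (((0 : ℝ), z), v),
          ∀ v, 0 ≤ inner ℝ (P 0 q.1.2 v) (L q.1.2 v) :=
        ((by fun_prop : ContinuousAt (fun q : (ℝ × E n) × E n => q.1.2)
          (((0 : ℝ), z), v))).eventually hnn
      obtain ⟨δ, hδ, hball⟩ := Metric.eventually_nhds_iff.1 (hev1.and (hev3.and hev4))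
      refine Metric.eventually_nhds_iff.2 ⟨δ, hδ, ?_⟩
      rintro ⟨⟨ε, w⟩, u⟩ hq hε
      simp only at hε ⊢
      have hq' : ∀ t : ℝ, 0 ≤ t → t ≤ ε → dist (((t, w), u) : (ℝ × E n) × E n) (((0 : ℝ), z), v) < δ := by
        intro t ht0 ht1
        refine lt_of_le_of_lt ?_ hq
        simp only [Prod.dist_eq, Real.dist_eq, sub_zero]
        rw [abs_of_nonneg ht0, abs_of_pos hε]
        exact max_le_max (max_le_max ht1 le_rfl) le_rfl
      have hder : ∀ t : ℝ, 0 ≤ t → t ≤ ε →
          HasDerivAt (fun t => inner ℝ (P t w u) (L w u)) (inner ℝ (P' t w u) (L w u)) t := by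
        intro t ht0 ht1
        have h := (hball (hq' t ht0 ht1)).2.1
        have h' : HasDerivAt (fun t => P t w u) (P' t w u) t := by
          have := (ContinuousLinearMap.apply ℝ (E a) u).hasFDerivAt.comp_hasDerivAt t h
          exact this
        have h'' := h'.inner ℝ (hasDerivAt_const t (L w u))
        simpa using h''
      have hmono : StrictMonoOn (fun t => inner ℝ (P t w u) (L w u)) (Icc 0 ε) := by
        refine strictMonoOn_of_deriv_pos (convex_Icc 0 ε) ?_ ?_
        · intro t ht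
          exact (hder t ht.1 ht.2).continuousAt.continuousWithinAt
        · intro t ht
          rw [interior_Icc] at ht
          rw [(hder t ht.1.le ht.2.le).deriv]
          exact (hball (hq' t ht.1.le ht.2.le)).1
      have h5 := hmono (left_mem_Icc.2 hε.le) (right_mem_Icc.2 hε.le) hε
      have h6 : 0 ≤ inner ℝ (P 0 w u) (L w u) := (hball hq).2.2 u
      intro h7
      have h8 : inner ℝ (P ε w u) (L w u) = 0 := by rw [h7, inner_zero_left]
      have h9 : inner ℝ (P 0 w u) (L w u) < inner ℝ (P ε w u) (L w u) := h5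
      rw [h8] at h9
      exact absurd h6 (not_le.2 h9)
    · have e1 : ContinuousAt (fun q : (ℝ × E n) × E n => P q.1.1 q.1.2) (((0 : ℝ), z), v) :=
        ContinuousAt.comp (f := fun q : (ℝ × E n) × E n => q.1) (x := (((0 : ℝ), z), v)) h1
          continuousAt_fst
      have e2 : ContinuousAt (fun q : (ℝ × E n) × E n => P q.1.1 q.1.2 q.2) (((0 : ℝ), z), v) :=
        e1.clm_apply continuousAt_snd
      filter_upwards [e2.eventually_ne hP] with q hq _
      exact hq
  have hK := (isCompact_sphere (0 : E n) 1).eventually_forall_of_forall_eventually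
    (x₀ := ((0 : ℝ), z)) (P := fun p v => 0 < p.1 → P p.1 p.2 v ≠ 0) key
  filter_upwards [hK] with p hp hp0
  rw [injective_iff_map_eq_zero]
  intro v hv
  by_contra hv0
  have hn : ‖v‖ ≠ 0 := norm_ne_zero_iff.2 hv0
  have h1' : (‖v‖⁻¹ • v) ∈ sphere (0 : E n) 1 := by
    rw [mem_sphere_zero_iff_norm, norm_smul, norm_inv, norm_norm, inv_mul_cancel₀ hn]
  refine hp _ h1' hp0 ?_
  rw [map_smul, hv, smul_zero]

end Pool.Agent.L7h20.MO
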